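import Pool.Agent.R957.MaxU.Member

namespace Pool.Agent.Results.MP_840660_pr.TwoMaximisers

open Pool.Agent.R957.MaxU Finset

/-- the unit square cycle -/
def c1 (j : ℕ) : Fin 2 → ℤ :=
  match j % 4 with
  | 0 => ![0, 0]
  | 1 => ![1, 0]
  | 2 => ![1, 1]
  | _ => ![0, 1]

/-- the closed eight step walk filling a two by three block -/
def c2 (j : ℕ) : Fin 2 → ℤ :=
  match j % 8 with
  | 0 => ![1, 0]
  | 1 => ![1, 1]
  | 2 => ![0, 1]
  | 3 => ![0, 0]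
  | 4 => ![1, 0]
  | 5 => ![2, 0]
  | 6 => ![2, 1]
  | _ => ![1, 1]

/-- integer version of `F` -/
def K (x y : Fin 2 → ℤ) : ℤ :=
  if x = y then -1 else if (x 0 - y 0) ^ 2 + (x 1 - y 1) ^ 2 = 1 then 1 else 0

theorem F_eq (x y : Fin 2 → ℤ) : F 2 1 4 x y = (K x y : ℝ) := by
  unfold F K Nbr
  rw [Fin.sum_univ_two]
  split_ifs <;> norm_num

theorem c1_per (j : ℕ) : c1 (j + 4) = c1 j := by
  unfold c1
  rw [Nat.add_mod_right]

theorem c2_per (j : ℕ) : c2 (j + 8) = c2 j := by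
  unfold c2
  rw [Nat.add_mod_right]

theorem c1_step (j : ℕ) : Nbr (c1 (j + 1)) (c1 j) := by
  have h1 : ∀ r, r < 4 → Nbr (c1 (r + 1)) (c1 r) := by
    intro r hr
    unfold Nbr
    rw [Fin.sum_univ_two]
    interval_cases r <;> decide
  have h2 : c1 (j + 1) = c1 (j % 4 + 1) := by
    unfold c1
    rw [Nat.mod_add_mod]
  have h3 : c1 j = c1 (j % 4) := by
    unfold c1
    rw [Nat.mod_mod]
  rw [h2, h3]
  exact h1 _ (Nat.mod_lt _ (by norm_num))

theorem c2_step (j : ℕ) : Nbr (c2 (j + 1)) (c2 j) := by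
  have h1 : ∀ r, r < 8 → Nbr (c2 (r + 1)) (c2 r) := by
    intro r hr
    unfold Nbr
    rw [Fin.sum_univ_two]
    interval_cases r <;> decide
  have h2 : c2 (j + 1) = c2 (j % 8 + 1) := by
    unfold c2
    rw [Nat.mod_add_mod]
  have h3 : c2 j = c2 (j % 8) := by
    unfold c2
    rw [Nat.mod_mod]
  rw [h2, h3]
  exact h1 _ (Nat.mod_lt _ (by norm_num))

theorem e1 : energy 1 4 (cyc 4 c1) = 1 / 4 := by
  rw [cyc_energy]
  have h : ∑ i ∈ range 4, ∑ j ∈ range 4, K (c1 i) (c1 j) = 4 := by decide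
  have h2 : ∑ i ∈ range 4, ∑ j ∈ range 4, F 2 1 4 (c1 i) (c1 j) = 4 := by
    simp_rw [F_eq]
    exact_mod_cast h
  rw [h2]
  norm_num

theorem e2 : energy 1 4 (cyc 8 c2) = 1 / 4 := by
  rw [cyc_energy]
  have h : ∑ i ∈ range 8, ∑ j ∈ range 8, K (c2 i) (c2 j) = 16 := by decide
  have h2 : ∑ i ∈ range 8, ∑ j ∈ range 8, F 2 1 4 (c2 i) (c2 j) = 16 := by
    simp_rw [F_eq]
    exact_mod_cast h
  rw [h2]
  norm_num

theorem val1 (x : Fin 2 → ℤ) : ∃ N : ℕ, cyc 4 c1 x = (N : ℝ) / 4 := by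
  classical
  refine ⟨((range 4).filter (fun j => c1 j = x)).card, ?_⟩
  unfold cyc
  rw [← sum_filter, sum_const, nsmul_eq_mul]
  push_cast
  ring

theorem val2 : cyc 8 c2 ![0, 0] = 1 / 8 := by
  classical
  unfold cyc
  rw [← sum_filter, sum_const, nsmul_eq_mul]
  have : ((range 8).filter (fun j => c2 j = ![0, 0])).card = 1 := by decide
  have h2 : (({j ∈ range 8 | c2 j = ![0, 0]}).card : ℝ) = 1 := by
    exact_mod_cast this
  rw [h2]
  norm_num

/-- For `d = 2`, `beta = 1`, `gamma = 4` there are two inequivalent maximisers. -/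
theorem result : ∃ d : ℕ, 2 ≤ d ∧ ∃ β γ : ℝ, 0 < β ∧ β < γ ∧
    ∃ f f' : (Fin d → ℤ) → ℝ, IsMaximiser β γ f ∧ IsMaximiser β γ f' ∧
      ∀ φ : (Fin d → ℤ) → (Fin d → ℤ), IsLatticeIsometry φ → f' ≠ f ∘ φ := by
  refine ⟨2, le_rfl, 1, 4, by norm_num, by norm_num, cyc 4 c1, cyc 8 c2,
    ⟨cyc_inF (by norm_num) c1_per c1_step, fun g hg => ?_⟩,
    ⟨cyc_inF (by norm_num) c2_per c2_step, fun g hg => ?_⟩, ?_⟩
  · rw [e1]
    exact energy_le hg
  · rw [e2]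
    exact energy_le hg
  · intro φ _ h
    have h1 := congrFun h ![0, 0]
    rw [val2, Function.comp_apply] at h1
    obtain ⟨N, hN⟩ := val1 (φ ![0, 0])
    rw [hN] at h1
    have h2 : ((2 * N : ℕ) : ℝ) = ((1 : ℕ) : ℝ) := by
      push_cast
      linarith
    have h3 : 2 * N = 1 := by exact_mod_cast h2
    omega

end Pool.Agent.Results.MP_840660_pr.TwoMaximisers
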